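import Pool.Agent.L0h20.AS.Stm
import Pool.Agent.L0h20.SY.Her

/-! # Module CAT: the counting principle is an atom -/

set_option autoImplicit false

namespace Pool.Agent.L0h20.AS

open Pool.Agent.L0h36.BG Pool.Agent.L0h36.BF Pool.Agent.L0h20.SY

variable {p n : ℕ}

theorem ncard_eq_count {k : ℕ} (u : Fin k → Cl p n) (y : Cl p n) [DecidableEq (Cl p n)] :
    {j | u j = y}.ncard = Multiset.count y (Multiset.map u Finset.univ.val) := by
  rw [Multiset.count_map]
  have h : {j | u j = y} = ((Finset.univ.filter fun j => y = u j : Finset (Fin k)) :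
      Set (Fin k)) := by
    ext j
    simp only [Set.mem_ofPred_eq, Finset.coe_filter, Finset.mem_univ, true_and]
    exact eq_comm
  rw [h, Set.ncard_coe_finset]
  rfl

theorem exists_equiv_of_map {k l : ℕ} {f : Fin k → Fml p (Finset (Fin n))}
    {g : Fin l → Fml p (Finset (Fin n))}
    (h : Multiset.map (fun j => cl (f j)) Finset.univ.val =
      Multiset.map (fun j => cl (g j)) Finset.univ.val) :
    ∃ e : Fin k ≃ Fin l, ∀ j, Same (f j) (g (e j)) := by
  classical
  have h1 := (exists_equiv_iff (fun j => cl (f j)) (fun j => cl (g j))).2 (fun y => by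
    rw [ncard_eq_count, ncard_eq_count, h])
  simpa only [cl_eq] using h1

theorem map_get {J : Type} (l : List (Fml p (Finset (Fin n)))) (F : Fml p (Finset (Fin n)) → J) :
    Multiset.map (fun j => F (l.get j)) Finset.univ.val = Multiset.map F (l : Multiset (Fml p (Finset (Fin n)))) := by
  rw [Fin.univ_val_map, Multiset.map_coe]
  congr 1
  conv_rhs => rw [← List.ofFn_get l]
  rw [List.map_ofFn]
  rfl

theorem smul_cl_andL (σ : Equiv.Perm (Fin n)) (l l' : List (Fml p (Finset (Fin n))))
    (h : Multiset.map (fun φ => σ • cl φ) (l : Multiset (Fml p (Finset (Fin n)))) = Multiset.map cl (l' : Multiset (Fml p (Finset (Fin n))))) :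
    σ • cl (Pool.Agent.L0h36.BG.andL l) = cl (Pool.Agent.L0h36.BG.andL l') := by
  rw [smul_cl, cl_eq]
  show ∃ e : Fin l.length ≃ Fin l'.length, ∀ j, Same (image σ (l.get j)) (l'.get (e j))
  apply exists_equiv_of_map
  rw [map_get l' cl, ← h, ← map_get l (fun φ => σ • cl φ)]
  rfl

theorem smul_cl_orL (σ : Equiv.Perm (Fin n)) (l l' : List (Fml p (Finset (Fin n))))
    (h : Multiset.map (fun φ => σ • cl φ) (l : Multiset (Fml p (Finset (Fin n)))) = Multiset.map cl (l' : Multiset (Fml p (Finset (Fin n))))) :
    σ • cl (Pool.Agent.L0h36.BG.orL l) = cl (Pool.Agent.L0h36.BG.orL l') := by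
  rw [smul_cl, cl_eq]
  show ∃ e : Fin l.length ≃ Fin l'.length, ∀ j, Same (image σ (l.get j)) (l'.get (e j))
  apply exists_equiv_of_map
  rw [map_get l' cl, ← h, ← map_get l (fun φ => σ • cl φ)]
  rfl

theorem map_toList {ι : Type} {S S' : Finset ι} {g : ι → Fml p (Finset (Fin n))}
    (σ : Equiv.Perm (Fin n)) (τ : ι ≃ ι) (h1 : S.map τ.toEmbedding = S')
    (h2 : ∀ e ∈ S, σ • cl (g e) = cl (g (τ e))) :
    Multiset.map (fun φ => σ • cl φ) (S.toList.map g : Multiset (Fml p (Finset (Fin n)))) =
      Multiset.map cl (S'.toList.map g : Multiset (Fml p (Finset (Fin n)))) := by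
  rw [← Multiset.map_coe, ← Multiset.map_coe, Finset.coe_toList, Finset.coe_toList,
    Multiset.map_map, Multiset.map_map, ← h1, Finset.map_val, Multiset.map_map]
  apply Multiset.map_congr rfl
  intro e he
  exact h2 e he

theorem mem_subs_self {α : Type} (φ : Fml p α) : φ ∈ φ.subs := by
  cases φ with
  | var x => exact rfl
  | neg φ => exact Set.mem_insert _ _
  | and k f => exact Set.mem_insert _ _
  | or k f => exact Set.mem_insert _ _
  | mod i k f => exact Set.mem_insert _ _

theorem subs_andL {α : Type} {l : List (Fml p α)} {ψ : Fml p α} (h : ψ ∈ (Pool.Agent.L0h36.BG.andL l).subs) :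
    ψ = Pool.Agent.L0h36.BG.andL l ∨ ∃ φ ∈ l, ψ ∈ φ.subs := by
  rcases h with h | h
  · exact Or.inl h
  · obtain ⟨j, hj⟩ := Set.mem_iUnion.1 h
    exact Or.inr ⟨l.get j, List.get_mem l j, hj⟩

theorem subs_orL {α : Type} {l : List (Fml p α)} {ψ : Fml p α} (h : ψ ∈ (Pool.Agent.L0h36.BG.orL l).subs) :
    ψ = Pool.Agent.L0h36.BG.orL l ∨ ∃ φ ∈ l, ψ ∈ φ.subs := by
  rcases h with h | h
  · exact Or.inl h
  · obtain ⟨j, hj⟩ := Set.mem_iUnion.1 h
    exact Or.inr ⟨l.get j, List.get_mem l j, hj⟩

theorem smul_uncovered (q : ℕ) (σ : Equiv.Perm (Fin n)) (v : Fin n) :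
    σ • cl (uncovered p q n v) = cl (uncovered p q n (σ v)) := by
  classical
  unfold uncovered
  apply smul_cl_andL
  apply map_toList σ (Equiv.finsetCongr σ)
  · apply Finset.eq_of_subset_of_card_le
    · intro e he
      rw [Finset.mem_map] at he
      obtain ⟨e', he', rfl⟩ := he
      rw [Finset.mem_filter] at he' ⊢
      refine ⟨Finset.mem_univ _, ?_, ?_⟩
      · show (e'.map σ.toEmbedding).card = q
        rw [Finset.card_map]
        exact he'.2.1
      · show σ v ∈ e'.map σ.toEmbedding
        exact Finset.mem_map_of_mem _ he'.2.2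
    · rw [Finset.card_map]
      apply Finset.card_le_card_of_injOn (fun e => e.map σ.symm.toEmbedding)
      · intro e he
        rw [Finset.mem_coe, Finset.mem_filter] at he
        rw [Finset.mem_coe, Finset.mem_filter]
        refine ⟨Finset.mem_univ _, ?_, ?_⟩
        · rw [Finset.card_map]
          exact he.2.1
        · have := Finset.mem_map_of_mem σ.symm.toEmbedding he.2.2
          rwa [Equiv.coe_toEmbedding, Equiv.symm_apply_apply] at this
      · intro a _ b _ hab
        exact Finset.map_injective _ hab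
  · intro e _
    rfl

theorem smul_clash (σ : Equiv.Perm (Fin n)) (e f : Finset (Fin n)) :
    σ • cl (clash p n e f) = cl (clash p n (e.map σ.toEmbedding) (f.map σ.toEmbedding)) := by
  unfold clash
  apply smul_cl_andL
  rfl

theorem smul_count (q : ℕ) (σ : Equiv.Perm (Fin n)) :
    σ • cl (countFml p q n) = cl (countFml p q n) := by
  classical
  unfold countFml
  apply smul_cl_orL
  rw [← Multiset.coe_add, Multiset.map_add, Multiset.map_add]
  congr 1
  · apply map_toList σ σ
    · exact Finset.map_univ_equiv σ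
    · intro v _
      exact smul_uncovered q σ v
  · apply map_toList σ (Equiv.prodCongr (Equiv.finsetCongr σ) (Equiv.finsetCongr σ))
    · apply Finset.eq_of_subset_of_card_le
      · intro x hx
        rw [Finset.mem_map] at hx
        obtain ⟨⟨e, f⟩, he, rfl⟩ := hx
        rw [clashes, Finset.mem_filter] at he ⊢
        obtain ⟨-, h1, h2, h3, h4⟩ := he
        refine ⟨Finset.mem_univ _, ?_, ?_, ?_, ?_⟩
        · show (e.map σ.toEmbedding).card = q
          rw [Finset.card_map]
          exact h1
        · show (f.map σ.toEmbedding).card = q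
          rw [Finset.card_map]
          exact h2
        · show e.map σ.toEmbedding ≠ f.map σ.toEmbedding
          exact fun h => h3 (Finset.map_injective _ h)
        · show ¬ Disjoint (e.map σ.toEmbedding) (f.map σ.toEmbedding)
          rw [Finset.disjoint_map]
          exact h4
      · rw [Finset.card_map]
    · rintro ⟨e, f⟩ _
      exact smul_clash σ e f

theorem t_CAT : S_CAT := by
  intro p q n k hq hk ψ hψ
  have hvar : ∀ e : Finset (Fin n), e.card = q → ∃ B : Finset (Fin n), B.card ≤ k ∧
      Sup Finset.univ B (cl (Fml.var e) : Cl p n) := by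
    intro e he
    refine ⟨e, by omega, ?_⟩
    have := sup_var_inter (p := p) Finset.univ e
    rwa [Finset.inter_univ] at this
  rcases subs_orL hψ with h | ⟨φ, hφ, hψ⟩
  · refine ⟨∅, by simp, ?_⟩
    have h' : ψ = countFml p q n := h
    rw [h']
    intro σ _ _
    exact smul_count q σ
  · rw [List.mem_append, List.mem_map, List.mem_map] at hφ
    rcases hφ with ⟨v, -, rfl⟩ | ⟨⟨e, f⟩, hef, rfl⟩
    · rcases subs_andL hψ with h | ⟨φ, hφ, hψ⟩
      · refine ⟨{v}, by rw [Finset.card_singleton]; omega, ?_⟩
        have h' : ψ = uncovered p q n v := h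
        rw [h']
        intro σ _ hσ
        rw [smul_uncovered, hσ v (Finset.mem_singleton_self v)]
      · rw [List.mem_map] at hφ
        obtain ⟨e, he, rfl⟩ := hφ
        rw [Finset.mem_toList, Finset.mem_filter] at he
        obtain ⟨B, h1, h2⟩ := hvar e he.2.1
        rcases hψ with h | h
        · rw [h]
          exact ⟨B, h1, sup_neg_iff.2 h2⟩
        · have h' : ψ = Fml.var e := h
          rw [h']
          exact ⟨B, h1, h2⟩
    · rw [Finset.mem_toList, clashes, Finset.mem_filter] at hef
      obtain ⟨-, h1, h2, -, -⟩ := hef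
      change e.card = q at h1
      change f.card = q at h2
      rcases subs_andL hψ with h | ⟨φ, hφ, hψ⟩
      · refine ⟨e ∪ f, (Finset.card_union_le e f).trans (by omega), ?_⟩
        have h' : ψ = clash p n e f := h
        rw [h']
        intro σ _ hσ
        rw [smul_clash, map_eq_of_fix (fun x hx => hσ x (Finset.mem_union_left _ hx)),
          map_eq_of_fix (fun x hx => hσ x (Finset.mem_union_right _ hx))]
      · rw [List.mem_cons, List.mem_singleton] at hφ
        rcases hφ with rfl | rfl
        · have h' : ψ = Fml.var e := hψ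
          rw [h']
          exact hvar e h1
        · have h' : ψ = Fml.var f := hψ
          rw [h']
          exact hvar f h2

end Pool.Agent.L0h20.AS
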