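import Pool.Agent.L0h20.AS.Stm

/-! # Module ROO: a tree has a branch compatible with a given system if there is room -/

set_option autoImplicit false

namespace Pool.Agent.L0h20.AS

open Pool.Agent.L0h36.BG Pool.Agent.L0h36.BF Pool.Agent.L0h20.SY

theorem roo_aux {q n t : ℕ} {ρ r : Finset (Finset (Fin n))} (hq : 1 ≤ q) (hρ : ρ ⊆ r)
    (hroom : q * (r.card + t + 1) ≤ n) (T : DT (Fin n)) :
    ∀ m : Finset (Finset (Fin n)), ρ ⊆ m → PM q (m ∪ r) →
      (∀ s, Reach q T m s → (s \ ρ).card ≤ t) →
      ∃ (m' : Finset (Finset (Fin n))) (b : Bool), Br q T m m' b ∧ PM q (m' ∪ r) ∧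
        (m' \ ρ).card ≤ t := by
  induction T with
  | leaf b =>
    intro m _ hpm hd
    exact ⟨m, b, Br.leaf b m, hpm, hd m (Reach.here _ _)⟩
  | node v c ih =>
    intro m hm hpm hd
    by_cases hv : v ∈ cov m
    · obtain ⟨e, he, hve⟩ := mem_cov.1 hv
      obtain ⟨m', b, h1, h2, h3⟩ := ih e m hm hpm
        (fun s hs => hd s (Reach.covered v c m s e he hve hs))
      exact ⟨m', b, Br.covered v c m m' b e he hve h1, h2, h3⟩
    · obtain ⟨e, hve, hpm'⟩ : ∃ e : Finset (Fin n), v ∈ e ∧ PM q (insert e m ∪ r) := by
        by_cases hvr : v ∈ cov r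
        · obtain ⟨e, he, hve⟩ := mem_cov.1 hvr
          refine ⟨e, hve, ?_⟩
          rw [Finset.insert_union, Finset.insert_eq_of_mem (Finset.mem_union_right _ he)]
          exact hpm
        · have hc : (cov (m ∪ r)).card ≤ q * (r.card + t) := by
            rw [hpm.card_cov]
            apply Nat.mul_le_mul_left
            have h1 : m ∪ r ⊆ r ∪ (m \ ρ) := by
              intro x hx
              rw [Finset.mem_union] at hx
              rw [Finset.mem_union, Finset.mem_sdiff]
              by_cases hxr : x ∈ r
              · exact Or.inl hxr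
              · exact Or.inr ⟨hx.resolve_right hxr, fun h => hxr (hρ h)⟩
            refine (Finset.card_le_card h1).trans ((Finset.card_union_le _ _).trans ?_)
            exact Nat.add_le_add_left (hd m (Reach.here _ _)) _
          have hvc : v ∉ cov (m ∪ r) := by
            rw [cov_union, Finset.mem_union]
            exact fun h => h.elim hv hvr
          obtain ⟨e, h1, h2, h3⟩ := Finset.exists_subsuperset_card_eq
            (s := {v}) (t := (cov (m ∪ r))ᶜ) (n := q) (by
              rw [Finset.singleton_subset_iff, Finset.mem_compl]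
              exact hvc) (by
              rw [Finset.card_singleton]
              exact hq) (by
              rw [Finset.card_compl, Fintype.card_fin]
              have : q * (r.card + t + 1) = q * (r.card + t) + q := by ring
              omega)
          refine ⟨e, h1 (Finset.mem_singleton_self v), ?_⟩
          rw [Finset.insert_union]
          apply hpm.cons h3
          rw [Finset.disjoint_left]
          intro x hx hx'
          exact Finset.mem_compl.1 (h2 hx) hx'
      have hpm1 : PM q (insert e m) := hpm'.mono Finset.subset_union_left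
      obtain ⟨m', b, h1, h2, h3⟩ := ih e (insert e m) (hm.trans (Finset.subset_insert _ _)) hpm'
        (fun s hs => hd s (Reach.query v c m s e hv hve hpm1 hs))
      exact ⟨m', b, Br.query v c m m' b e hv hve hpm1 h1, h2, h3⟩

theorem t_ROO : S_ROO := by
  intro q n t T ρ r hq hr hρ hd hroom
  exact roo_aux hq hρ hroom T ρ (Finset.Subset.refl _) (by rwa [Finset.union_eq_right.2 hρ]) hd

end Pool.Agent.L0h20.AS
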